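import Pool.Agent.W637.RC.PTD
import Pool.Agent.N44.NS.Defs

/-!
# Project MS (helper682): a matricially stable group which is not Hilbert-Schmidt stable

Statements of the leaves.
-/

set_option autoImplicit false

namespace Pool.Agent.N682.MS

open Matrix Filter Topology
open Pool.Agent.W661.RC (HasT Mk Smo Mt hs)
open Pool.Agent.W637.RC.PTD (rp)
open Pool.Agent.N44.NS (E3 el)

noncomputable section

/-! ### operator norm part -/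

/-- the operator norm of a square matrix -/
def opn {d : ℕ} (a : Mt d) : ℝ := ‖Matrix.toEuclideanCLM (𝕜 := ℂ) a‖

/-- the squared normalised Hilbert-Schmidt norm -/
def hsn {d : ℕ} (a : Mt d) : ℝ := (Matrix.trace (Matrix.conjTranspose a * a)).re / (d : ℝ)

/-- asymptotic homomorphisms for the operator norm -/
def AsO {G : Type} [Group G] {d : ℕ → ℕ} (φ : ∀ n, G → Matrix.unitaryGroup (Fin (d n)) ℂ) : Prop :=
  ∀ g h : G, Tendsto (fun n => opn ((φ n (g * h)).val - (φ n g).val * (φ n h).val)) atTop (𝓝 0)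

/-- asymptotic homomorphisms for the normalised Hilbert-Schmidt norm -/
def AsH {G : Type} [Group G] {d : ℕ → ℕ} (φ : ∀ n, G → Matrix.unitaryGroup (Fin (d n)) ℂ) : Prop :=
  ∀ g h : G, Tendsto (fun n => hsn ((φ n (g * h)).val - (φ n g).val * (φ n h).val)) atTop (𝓝 0)

/-- the representation of `U(d)` on `ℂ ^ d` -/
def lp {d : ℕ} : Matrix.unitaryGroup (Fin d) ℂ →*
    unitary (EuclideanSpace ℂ (Fin d) →L[ℂ] EuclideanSpace ℂ (Fin d)) where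
  toFun V := ⟨Matrix.toEuclideanCLM (𝕜 := ℂ) V.val, by
    have h := Unitary.mem_iff.1 V.2
    rw [Unitary.mem_iff, ← map_star, ← map_mul, ← map_mul, h.1, h.2, map_one]
    exact ⟨rfl, rfl⟩⟩
  map_one' := by
    apply Subtype.ext
    exact map_one (Matrix.toEuclideanCLM (𝕜 := ℂ) (n := Fin d))
  map_mul' V W := by
    apply Subtype.ext
    exact map_mul (Matrix.toEuclideanCLM (𝕜 := ℂ) (n := Fin d)) V.val W.val

/-- the representation of the free group on `ℂ ^ d` given by the unitary matrices `U s` -/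
def lf {k d : ℕ} (U : Fin k → Matrix.unitaryGroup (Fin d) ℂ) : FreeGroup (Fin k) →*
    unitary (EuclideanSpace ℂ (Fin d) →L[ℂ] EuclideanSpace ℂ (Fin d)) :=
  lp.comp (FreeGroup.lift U)

/-- the representation of the free group on the matrices by conjugation with the `U s` -/
def cf {k d : ℕ} (U : Fin k → Matrix.unitaryGroup (Fin d) ℂ) : FreeGroup (Fin k) →*
    unitary (EuclideanSpace ℂ (Fin d × Fin d) →L[ℂ] EuclideanSpace ℂ (Fin d × Fin d)) :=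
  rp.comp (FreeGroup.lift U)

section rep

variable {k : ℕ} {H : Type} [NormedAddCommGroup H] [InnerProductSpace ℂ H] [CompleteSpace H]

/-- the displacement of a vector -/
def Dsp (ρ : FreeGroup (Fin k) →* unitary (H →L[ℂ] H)) (ξ : H) : ℝ :=
  ∑ s, ‖(ρ (FreeGroup.of s) : H →L[ℂ] H) ξ - ξ‖ ^ 2

/-- the lazy Markov operator has no (real) eigenvalues strictly between `1 - κ` and `1 - θ` -/
def Gp (ρ : FreeGroup (Fin k) →* unitary (H →L[ℂ] H)) (κ θ : ℝ) : Prop :=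
  ∀ (μ : ℝ) (v : H), v ≠ 0 → Mk ρ v = (μ : ℂ) • v → μ ≤ 1 - κ ∨ 1 - θ ≤ μ

end rep

/-- GAP: smoothing gives a gap -/
def S_GAP : Prop := ∀ (k : ℕ) (C : ℝ), 1 ≤ C → ∃ κ : ℝ, 0 < κ ∧ ∀ θ : ℝ, 0 < θ → ∃ η : ℝ, 0 < η ∧
  ∀ (H : Type) [NormedAddCommGroup H] [InnerProductSpace ℂ H] [CompleteSpace H]
    (ρ : FreeGroup (Fin k) →* unitary (H →L[ℂ] H)) (K : ℕ), (∀ ξ : H, Smo ρ K C η ξ) → Gp ρ κ θ

/-- GAPM: the gap for almost representations of Kazhdan groups in the operator norm -/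
def S_GAPM : Prop := ∀ (Γ : Type) [Group Γ] (k : ℕ) (γ : FreeGroup (Fin k) →* Γ), HasT Γ →
  Function.Surjective γ → ∃ κ : ℝ, 0 < κ ∧ ∀ θ : ℝ, 0 < θ → ∃ δ : ℝ, 0 < δ ∧
    ∃ R : Finset (FreeGroup (Fin k)), (∀ w ∈ R, γ w = 1) ∧
      ∀ (d : ℕ) (U : Fin k → Matrix.unitaryGroup (Fin d) ℂ),
        (∀ w ∈ R, opn ((FreeGroup.lift U w).val - 1) ≤ δ) → Gp (lf U) κ θ ∧ Gp (cf U) κ θ

/-- KEY: if a unitary `T` maps almost invariant vectors to almost invariant vectors, then all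
vectors `u` such that `T u` is almost invariant are almost invariant (dimension count). -/
def S_KEY : Prop := ∀ (k : ℕ) (κ : ℝ), 0 < κ → ∃ A : ℝ, 0 ≤ A ∧ ∀ ε ω : ℝ, 0 < ε → ε ≤ κ → 0 < ω →
  ∃ θ : ℝ, 0 < θ ∧
  ∀ (H : Type) [NormedAddCommGroup H] [InnerProductSpace ℂ H] [CompleteSpace H]
    [FiniteDimensional ℂ H] (ρ : FreeGroup (Fin k) →* unitary (H →L[ℂ] H))
    (T : unitary (H →L[ℂ] H)), Gp ρ κ θ →
    (∀ v : H, Dsp ρ v ≤ ω * ‖v‖ ^ 2 → Dsp ρ ((T : H →L[ℂ] H) v) ≤ ε * ‖v‖ ^ 2) →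
    ∀ u : H, Dsp ρ u ≤ A * Dsp ρ ((T : H →L[ℂ] H) u) + A * ε * ‖u‖ ^ 2

/-- SPEC: the spectral projection `q` on the complement of the almost invariant vectors -/
def S_SPEC : Prop := ∀ (k : ℕ) (κ ε : ℝ), 0 < κ → 0 < ε → ∃ θ : ℝ, 0 < θ ∧
  ∀ (d : ℕ) (U : Fin k → Matrix.unitaryGroup (Fin d) ℂ), Gp (lf U) κ θ →
    ∃ q : Mt d, qᴴ = q ∧ q * q = q ∧
      (∀ (s : Fin k) (x : Mt d), hs (((U s).val - 1) * ((1 - q) * x)) ≤ ε * hs x) ∧
      κ * hs q ≤ ∑ s, hs (((U s).val - 1) * q)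

/-- asymptotic homomorphisms for the operator norm along a filter -/
def AsF {I G : Type} [Group G] (F : Filter I) (d : I → ℕ)
    (φ : ∀ i, G → Matrix.unitaryGroup (Fin (d i)) ℂ) : Prop :=
  ∀ g h : G, Tendsto (fun i => opn ((φ i (g * h)).val - (φ i g).val * (φ i h).val)) F (𝓝 0)

/-- the sequence `y` of matrices commutes asymptotically with `φ g` in the Hilbert-Schmidt norm -/
def Cm {I G : Type} [Group G] (F : Filter I) {d : I → ℕ}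
    (φ : ∀ i, G → Matrix.unitaryGroup (Fin (d i)) ℂ) (y : ∀ i, Mt (d i)) (g : G) : Prop :=
  Tendsto (fun i => hs ((φ i g).val * y i - y i * (φ i g).val)) F (𝓝 0)

/-- R2: sequences commuting with the smaller group commute with the larger group -/
def S_R2 : Prop := ∀ (I : Type) (F : Filter I) (Γ G : Type) [Group Γ] [Group G], HasT Γ →
  ∀ (Φ : Γ →* Γ) (ι : Γ →* G) (t : G), (∀ x, t⁻¹ * ι x * t = ι (Φ x)) →
    ∀ (d : I → ℕ) (φ : ∀ i, G → Matrix.unitaryGroup (Fin (d i)) ℂ), AsF F d φ →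
      ∀ y : ∀ i, Mt (d i), (∀ i, hs (y i) ≤ 1) → (∀ x, Cm F φ y (ι (Φ x))) → ∀ x, Cm F φ y (ι x)

/-- R1: the group acts trivially on the sequences which commute with it -/
def S_R1 : Prop := ∀ (I : Type) (F : Filter I) (Γ G : Type) [Group Γ] [Group G] (Φ : Γ →* Γ)
  (l x0 : Γ) (ι : Γ →* G), (∀ x, ι l * ι (Φ x) = ι (Φ x) * ι l) →
    (∀ x, ∃ x' ∈ Subgroup.normalClosure {l⁻¹ * x0 * l * x0⁻¹}, ι x = ι x') →
    ∀ (d : I → ℕ) (φ : ∀ i, G → Matrix.unitaryGroup (Fin (d i)) ℂ), AsF F d φ →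
      (∀ y : ∀ i, Mt (d i), (∀ i, hs (y i) ≤ 1) → (∀ x, Cm F φ y (ι (Φ x))) →
        ∀ x, Cm F φ y (ι x)) →
      ∀ ξ : ∀ i, Mt (d i), (∀ i, hs (ξ i) ≤ 1) → (∀ x, Cm F φ ξ (ι x)) →
        ∀ x, Tendsto (fun i => hs (((φ i (ι x)).val - 1) * ξ i)) F (𝓝 0)

/-- RIG: operator norm rigidity -/
def S_RIG : Prop := ∀ (Γ G : Type) [Group Γ] [Group G], HasT Γ →
  ∀ (Φ : Γ →* Γ) (l x0 : Γ) (ι : Γ →* G) (t : G),
    (∀ x, t⁻¹ * ι x * t = ι (Φ x)) → (∀ x, ι l * ι (Φ x) = ι (Φ x) * ι l) →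
    (∀ x, ∃ x' ∈ Subgroup.normalClosure {l⁻¹ * x0 * l * x0⁻¹}, ι x = ι x') →
    ∀ (d : ℕ → ℕ) (φ : ∀ n, G → Matrix.unitaryGroup (Fin (d n)) ℂ), AsO φ →
      ∀ x, Tendsto (fun n => opn ((φ n (ι x)).val - 1)) atTop (𝓝 0)

/-! ### algebra part -/

/-- the free algebra with four generators -/
abbrev AA : Type := FreeAlgebra (ZMod 257) (Fin 4)

/-- LEV: iterated matrix rings -/
def S_LEV : Prop := ∃ (Φ : AA →+* AA) (e f : AA) (R : ℕ → Type) (_ : ∀ r, Ring (R r))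
  (_ : ∀ r, Finite (R r)) (_ : ∀ r, Nontrivial (R r)) (ev : ∀ r, AA →+* R r)
  (δ : ∀ r, R r →+* R (r + 1)),
  (∀ r a, ev (r + 1) (Φ a) = δ r (ev r a)) ∧
    (∀ r, ev (r + 1) (e * e) = 0 ∧ ev (r + 1) (f * f) = 0 ∧ ev (r + 1) (e * f + f * e) = 1) ∧
    ∀ r y, ev (r + 1) e * δ r y = δ r y * ev (r + 1) e

/-- the algebraic data: homomorphisms `f m j` to finite groups -/
structure Dta (Γ : Type) [Group Γ] (Φ : Γ →* Γ) (l x0 : Γ) (Q : ℕ → Type) [∀ m, Group (Q m)]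
    (f : ∀ m, ℕ → (Γ →* Q m)) : Prop where
  shift : ∀ m j x, j < m → f m j (Φ x) = f m (j + 1) x
  comm : ∀ m j x, j < m → f m j l * f m j (Φ x) = f m j (Φ x) * f m j l
  gen : ∀ x, ∃ x' ∈ Subgroup.normalClosure {l⁻¹ * x0 * l * x0⁻¹}, ∀ m j, j < m → f m j x = f m j x'
  nontriv : ∃ x, ∀ m j, j < m → f m j x ≠ 1

/-- DTA: existence of the data -/
def S_DTA : Prop := ∃ (Γ : Type) (_ : Group Γ) (Φ : Γ →* Γ) (l x0 : Γ) (Q : ℕ → Type)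
  (_ : ∀ m, Group (Q m)) (_ : ∀ m, Finite (Q m)) (f : ∀ m, ℕ → (Γ →* Q m)),
  HasT Γ ∧ Dta Γ Φ l x0 Q f

/-! ### group theory part -/

/-- GRP: the group `G` and its asymptotic homomorphism to permutations -/
def S_GRP : Prop := ∀ (Γ : Type) [Group Γ] (k : ℕ) (γ : FreeGroup (Fin k) →* Γ),
  Function.Surjective γ → ∀ (Φ : Γ →* Γ) (l x0 : Γ) (Q : ℕ → Type) [∀ m, Group (Q m)]
    [∀ m, Finite (Q m)] (f : ∀ m, ℕ → (Γ →* Q m)), Dta Γ Φ l x0 Q f →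
  ∃ (G : Type) (_ : Group G) (_ : Countable G) (ι : Γ →* G) (t : G) (e : G →* Multiplicative ℤ),
    (∀ x, t⁻¹ * ι x * t = ι (Φ x)) ∧ (∀ x, ι l * ι (Φ x) = ι (Φ x) * ι l) ∧
    (∀ x, ∃ x' ∈ Subgroup.normalClosure {l⁻¹ * x0 * l * x0⁻¹}, ι x = ι x') ∧
    e t = Multiplicative.ofAdd 1 ∧ (∀ x, e (ι x) = 1) ∧
    (∀ g, e g = 1 → g ∈ Subgroup.normalClosure (Set.range ι)) ∧
    ∃ (X : ℕ → Type) (_ : ∀ m, Fintype (X m)) (_ : ∀ m, Nonempty (X m))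
      (σ : ∀ m, G → Equiv.Perm (X m)),
      (∀ g h : G, Tendsto (fun m => (Nat.card {y : X m // σ m (g * h) y ≠ σ m g (σ m h y)} : ℝ) /
        Fintype.card (X m)) atTop (𝓝 0)) ∧
      ∃ x : Γ, ¬ Tendsto (fun m => (Nat.card {y : X m // σ m (ι x) y ≠ y} : ℝ) /
        Fintype.card (X m)) atTop (𝓝 0)

/-- PRM: permutations as unitary matrices -/
def S_PRM : Prop := ∀ (G : Type) [Group G] (X : ℕ → Type) [∀ m, Fintype (X m)]
  [∀ m, Nonempty (X m)] (σ : ∀ m, G → Equiv.Perm (X m)) (g0 : G),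
  (∀ g h : G, Tendsto (fun m => (Nat.card {y : X m // σ m (g * h) y ≠ σ m g (σ m h y)} : ℝ) /
    Fintype.card (X m)) atTop (𝓝 0)) →
  ¬ Tendsto (fun m => (Nat.card {y : X m // σ m g0 y ≠ y} : ℝ) /
    Fintype.card (X m)) atTop (𝓝 0) →
  ∃ (d : ℕ → ℕ) (ψ : ∀ m, G → Matrix.unitaryGroup (Fin (d m)) ℂ), AsH ψ ∧
    ¬ Tendsto (fun m => hsn ((ψ m g0).val - 1)) atTop (𝓝 0)

/-- FIN: the group `G` is matricially stable and not Hilbert-Schmidt stable -/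
def S_FIN : Prop := S_RIG → ∀ (Γ G : Type) [Group Γ] [Group G], HasT Γ →
  ∀ (Φ : Γ →* Γ) (l x0 : Γ) (ι : Γ →* G) (t : G) (e : G →* Multiplicative ℤ),
    (∀ x, t⁻¹ * ι x * t = ι (Φ x)) → (∀ x, ι l * ι (Φ x) = ι (Φ x) * ι l) →
    (∀ x, ∃ x' ∈ Subgroup.normalClosure {l⁻¹ * x0 * l * x0⁻¹}, ι x = ι x') →
    e t = Multiplicative.ofAdd 1 → (∀ x, e (ι x) = 1) →
    (∀ g, e g = 1 → g ∈ Subgroup.normalClosure (Set.range ι)) →
    (∀ (k : ℕ → ℕ) (φ : ∀ n, G → Matrix.unitaryGroup (Fin (k n)) ℂ), AsO φ →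
      ∃ ρ : ∀ n, G →* Matrix.unitaryGroup (Fin (k n)) ℂ, ∀ g,
        Tendsto (fun n => opn ((φ n g).val - (ρ n g).val)) atTop (𝓝 0)) ∧
    ∀ (k : ℕ → ℕ) (ψ : ∀ n, G → Matrix.unitaryGroup (Fin (k n)) ℂ) (x : Γ),
      ¬ Tendsto (fun n => hsn ((ψ n (ι x)).val - 1)) atTop (𝓝 0) →
      ¬ ∃ ρ : ∀ n, G →* Matrix.unitaryGroup (Fin (k n)) ℂ, ∀ g,
        Tendsto (fun n => hsn ((ψ n g).val - (ρ n g).val)) atTop (𝓝 0)

/-- The final theorem from the leaves. -/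
theorem final_of (hR : S_RIG) (hD : S_DTA) (hG : S_GRP) (hP : S_PRM) (hF : S_FIN)
    (hgen : ∀ (Γ : Type) [Group Γ], HasT Γ →
      ∃ (k : ℕ) (γ : FreeGroup (Fin k) →* Γ), Function.Surjective γ) :
    ¬ (∀ (G : Type) [Group G] [Countable G],
      (∀ (k : ℕ → ℕ) (φ : ∀ n : ℕ, G → Matrix.unitaryGroup (Fin (k n)) ℂ),
        (∀ g h : G, Tendsto (fun n : ℕ =>
            ‖Matrix.toEuclideanCLM (𝕜 := ℂ)
              ((φ n (g * h)).val - (φ n g).val * (φ n h).val)‖) atTop (𝓝 0)) →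
        ∃ ρ : ∀ n : ℕ, G →* Matrix.unitaryGroup (Fin (k n)) ℂ,
          ∀ g : G, Tendsto (fun n : ℕ =>
            ‖Matrix.toEuclideanCLM (𝕜 := ℂ) ((φ n g).val - (ρ n g).val)‖) atTop (𝓝 0)) →
      (∀ (k : ℕ → ℕ) (φ : ∀ n : ℕ, G → Matrix.unitaryGroup (Fin (k n)) ℂ),
        (∀ g h : G, Tendsto (fun n : ℕ =>
            (Matrix.trace (Matrix.conjTranspose
                ((φ n (g * h)).val - (φ n g).val * (φ n h).val) *
              ((φ n (g * h)).val - (φ n g).val * (φ n h).val))).re / (k n : ℝ))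
            atTop (𝓝 0)) →
        ∃ ρ : ∀ n : ℕ, G →* Matrix.unitaryGroup (Fin (k n)) ℂ,
          ∀ g : G, Tendsto (fun n : ℕ =>
            (Matrix.trace (Matrix.conjTranspose ((φ n g).val - (ρ n g).val) *
              ((φ n g).val - (ρ n g).val))).re / (k n : ℝ)) atTop (𝓝 0))) := by
  intro hall
  obtain ⟨Γ, _, Φ, l, x0, Q, _, _, f, hT, hDta⟩ := hD
  obtain ⟨k, γ, hγ⟩ := hgen Γ hT
  obtain ⟨G, _, _, ι, t, e, h1, h2, h3, h4, h5, h6, X, _, _, σ, hσ, x, hx⟩ :=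
    hG Γ k γ hγ Φ l x0 Q f hDta
  obtain ⟨d, ψ, hψ, hψx⟩ := hP G X σ (ι x) hσ hx
  obtain ⟨h7, h8⟩ := hF hR Γ G hT Φ l x0 ι t e h1 h2 h3 h4 h5 h6
  exact h8 d ψ x hψx (hall G h7 d ψ hψ)

end

end Pool.Agent.N682.MS
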