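import Pool.Agent.N682.MS.Stm

/-!
# Project MS: basic facts on the operator norm and the Hilbert-Schmidt norm
-/

set_option autoImplicit false

namespace Pool.Agent.N682.MS

open Matrix Filter Topology
open Pool.Agent.W661.RC (Mt hs)
open Pool.Agent.W683.RC
open scoped Matrix.Norms.L2Operator

noncomputable section

variable {d : ℕ}

theorem opn_eq (a : Mt d) : opn a = ‖a‖ := rfl

theorem opn_nonneg (a : Mt d) : 0 ≤ opn a := norm_nonneg _

theorem opn_conj (a : Mt d) : opn aᴴ = opn a := by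
  rw [opn_eq, opn_eq, Matrix.l2_opNorm_conjTranspose]

theorem opn_one_le : opn (1 : Mt d) ≤ 1 := by
  have h := CStarRing.norm_star_mul_self (x := (1 : Mt d))
  rw [star_one, one_mul] at h
  rw [opn_eq]
  nlinarith [norm_nonneg (1 : Mt d)]

theorem opn_un (V : Matrix.unitaryGroup (Fin d) ℂ) : opn V.val ≤ 1 := by
  have h := CStarRing.norm_star_mul_self (x := (V : Mt d))
  rw [Matrix.mem_unitaryGroup_iff'.1 V.2] at h
  have h2 := opn_one_le (d := d)
  rw [opn_eq] at h2 ⊢
  nlinarith [norm_nonneg (V : Mt d)]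

theorem opn_sub_comm (a b : Mt d) : opn (a - b) = opn (b - a) := by
  rw [opn_eq, opn_eq]
  exact norm_sub_rev a b

theorem hs_eq_col' (x : Mt d) :
    hs x = ∑ j, ‖(WithLp.toLp 2 (fun i => x i j) : EuclideanSpace ℂ (Fin d))‖ ^ 2 := by
  unfold hs
  rw [Finset.sum_comm]
  refine Finset.sum_congr rfl fun j _ => ?_
  rw [EuclideanSpace.norm_sq_eq]

theorem hs_opn (a x : Mt d) : hs (a * x) ≤ opn a ^ 2 * hs x := by
  rw [hs_eq_col', hs_eq_col', Finset.mul_sum]
  refine Finset.sum_le_sum fun j _ => ?_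
  rw [← mul_pow]
  refine pow_le_pow_left₀ (norm_nonneg _) ?_ 2
  have := Matrix.l2_opNorm_mulVec a (WithLp.toLp 2 (fun i => x i j) : EuclideanSpace ℂ (Fin d))
  refine le_trans (le_of_eq ?_) this
  congr 1

theorem hs_opn' (a x : Mt d) : hs (x * a) ≤ opn a ^ 2 * hs x := by
  rw [← hs_conjTranspose (x * a), ← hs_conjTranspose x, Matrix.conjTranspose_mul, ← opn_conj a]
  exact hs_opn _ _

theorem opn_le_of {a : Mt d} {c : ℝ} (hc : 0 ≤ c) (h : ∀ x : Mt d, hs (a * x) ≤ c * hs x) :
    opn a ≤ √c := by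
  unfold opn
  refine ContinuousLinearMap.opNorm_le_bound _ (Real.sqrt_nonneg _) fun v => ?_
  rcases Nat.eq_zero_or_pos d with hd | hd
  · subst hd
    have h1 : Matrix.toEuclideanCLM (𝕜 := ℂ) a v = 0 := Subsingleton.elim _ _
    rw [h1, norm_zero]
    positivity
  · have hd' : (0 : ℝ) < d := by exact_mod_cast hd
    have h1 := h (Matrix.of fun i _ => v i)
    have h2 : ∀ w : EuclideanSpace ℂ (Fin d), hs (Matrix.of fun i (_ : Fin d) => w i : Mt d) =
        d * ‖w‖ ^ 2 := by
      intro w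
      unfold hs
      rw [EuclideanSpace.norm_sq_eq, Finset.mul_sum]
      refine Finset.sum_congr rfl fun i _ => ?_
      simp
    have h3 : a * (Matrix.of fun i (_ : Fin d) => v i : Mt d) =
        (Matrix.of fun i (_ : Fin d) => (Matrix.toEuclideanCLM (𝕜 := ℂ) a v) i : Mt d) := by
      ext i j
      rw [Matrix.mul_apply, Matrix.of_apply, ofLp_toEuclideanCLM]
      rfl
    rw [h3, h2, h2] at h1
    have h4 : ‖Matrix.toEuclideanCLM (𝕜 := ℂ) a v‖ ^ 2 ≤ c * ‖v‖ ^ 2 := by
      have h5 : (d : ℝ) * ‖Matrix.toEuclideanCLM (𝕜 := ℂ) a v‖ ^ 2 ≤ d * (c * ‖v‖ ^ 2) := by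
        linarith
      exact le_of_mul_le_mul_left h5 hd'
    refine le_of_sq_le_sq ?_ (by positivity)
    rw [mul_pow, Real.sq_sqrt hc]
    exact h4

theorem hs_un (V : Matrix.unitaryGroup (Fin d) ℂ) (x : Mt d) : hs (V.val * x) = hs x :=
  hs_unit_mul (Pool.Agent.W637.RC.PTD.uni V) x

theorem hs_un' (V : Matrix.unitaryGroup (Fin d) ℂ) (x : Mt d) : hs (x * V.val) = hs x :=
  hs_mul_unit (Pool.Agent.W637.RC.PTD.uni V) x

theorem opn_un_mul (V : Matrix.unitaryGroup (Fin d) ℂ) (a : Mt d) : opn (V.val * a) ≤ opn a := by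
  have := norm_mul_le V.val a
  have h3 := opn_un V
  rw [opn_eq] at h3 ⊢
  rw [opn_eq]
  nlinarith [norm_nonneg a]

theorem opn_mul_un (V : Matrix.unitaryGroup (Fin d) ℂ) (a : Mt d) : opn (a * V.val) ≤ opn a := by
  have := norm_mul_le a V.val
  have h3 := opn_un V
  rw [opn_eq] at h3 ⊢
  rw [opn_eq]
  nlinarith [norm_nonneg a]

theorem un_inv_mul (V : Matrix.unitaryGroup (Fin d) ℂ) : V⁻¹.val * V.val = 1 := by
  rw [← Submonoid.coe_mul, inv_mul_cancel]
  rfl

theorem un_mul_inv (V : Matrix.unitaryGroup (Fin d) ℂ) : V.val * V⁻¹.val = 1 := by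
  rw [← Submonoid.coe_mul, mul_inv_cancel]
  rfl

theorem opn_add_le (a b : Mt d) : opn (a + b) ≤ opn a + opn b := by
  rw [opn_eq, opn_eq, opn_eq]
  exact norm_add_le a b

theorem hs_add4_le (a b c e : Mt d) :
    hs (a + b + c + e) ≤ 4 * (hs a + hs b + hs c + hs e) := by
  have h1 := hs_add_le (a + b) (c + e)
  have h2 := hs_add_le a b
  have h3 := hs_add_le c e
  have h4 : a + b + (c + e) = a + b + c + e := by abel
  rw [h4] at h1
  linarith

section seq

variable {I G : Type} [Group G] {F : Filter I} {d : I → ℕ}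
  {φ : ∀ i, G → Matrix.unitaryGroup (Fin (d i)) ℂ}

theorem asf_one (h : AsF F d φ) : Tendsto (fun i => opn ((φ i 1).val - 1)) F (𝓝 0) := by
  refine squeeze_zero (fun i => opn_nonneg _) (fun i => ?_) (h 1 1)
  have h2 : (φ i 1).val - 1 = (φ i 1)⁻¹.val *
      ((φ i 1).val * (φ i 1).val - (φ i 1).val) := by
    rw [Matrix.mul_sub, ← Matrix.mul_assoc, un_inv_mul, Matrix.one_mul]
  rw [h2, mul_one, opn_sub_comm (φ i 1).val]
  exact opn_un_mul _ _

theorem asf_inv (h : AsF F d φ) (g : G) :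
    Tendsto (fun i => opn ((φ i g⁻¹).val - (φ i g)⁻¹.val)) F (𝓝 0) := by
  have h1 := (h g g⁻¹).add (asf_one h)
  rw [add_zero] at h1
  refine squeeze_zero (fun i => opn_nonneg _) (fun i => ?_) h1
  have h2 : (φ i g⁻¹).val - (φ i g)⁻¹.val = (φ i g)⁻¹.val *
      (((φ i g).val * (φ i g⁻¹).val - (φ i (g * g⁻¹)).val) + ((φ i 1).val - 1)) := by
    rw [mul_inv_cancel, sub_add_sub_cancel, Matrix.mul_sub, ← Matrix.mul_assoc, un_inv_mul,
      Matrix.one_mul, Matrix.mul_one]
  rw [h2]
  refine (opn_un_mul _ _).trans ((opn_add_le _ _).trans ?_)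
  rw [opn_sub_comm ((φ i g).val * (φ i g⁻¹).val)]

/-- the elements which commute asymptotically with a bounded sequence form a subgroup -/
def cms (h : AsF F d φ) (y : ∀ i, Mt (d i)) (hy : ∀ i, hs (y i) ≤ 1) : Subgroup G where
  carrier := {g | Cm F φ y g}
  mul_mem' := by
    intro g k hg hk
    have h1 : Tendsto (fun i => 4 * (opn ((φ i (g * k)).val - (φ i g).val * (φ i k).val) ^ 2 +
        opn ((φ i (g * k)).val - (φ i g).val * (φ i k).val) ^ 2 +
        hs ((φ i k).val * y i - y i * (φ i k).val) +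
        hs ((φ i g).val * y i - y i * (φ i g).val))) F (𝓝 0) := by
      have := ((((h g k).pow 2).add ((h g k).pow 2)).add hk).add hg
      simpa using this.const_mul 4
    refine squeeze_zero (fun i => hs_nonneg _) (fun i => ?_) h1
    set a := (φ i (g * k)).val - (φ i g).val * (φ i k).val with ha
    have e1 : (φ i (g * k)).val * y i - y i * (φ i (g * k)).val = a * y i + (-(y i * a)) +
        (φ i g).val * ((φ i k).val * y i - y i * (φ i k).val) +
        ((φ i g).val * y i - y i * (φ i g).val) * (φ i k).val := by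
      rw [ha]
      noncomm_ring
    rw [e1]
    refine (hs_add4_le _ _ _ _).trans ?_
    rw [hs_neg, hs_un, hs_un']
    have h2 := hs_opn a (y i)
    have h3 := hs_opn' a (y i)
    have h4 : opn a ^ 2 * hs (y i) ≤ opn a ^ 2 := by
      nlinarith [hy i, sq_nonneg (opn a)]
    linarith
  one_mem' := by
    have h1 : Tendsto (fun i => 2 * opn ((φ i 1).val - 1) ^ 2 + 2 * opn ((φ i 1).val - 1) ^ 2)
        F (𝓝 0) := by
      have := (((asf_one h).pow 2).const_mul 2).add (((asf_one h).pow 2).const_mul 2)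
      simpa using this
    refine squeeze_zero (fun i => hs_nonneg _) (fun i => ?_) h1
    have e1 : (φ i 1).val * y i - y i * (φ i 1).val =
        ((φ i 1).val - 1) * y i - y i * ((φ i 1).val - 1) := by noncomm_ring
    rw [e1]
    refine (hs_sub_le _ _).trans ?_
    have h2 := hs_opn ((φ i 1).val - 1) (y i)
    have h3 := hs_opn' ((φ i 1).val - 1) (y i)
    have h4 : opn ((φ i 1).val - 1) ^ 2 * hs (y i) ≤ opn ((φ i 1).val - 1) ^ 2 := by
      nlinarith [hy i, sq_nonneg (opn ((φ i 1).val - 1))]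
    linarith
  inv_mem' := by
    intro g hg
    have h1 : Tendsto (fun i => 3 * opn ((φ i g⁻¹).val - (φ i g)⁻¹.val) ^ 2 +
        3 * opn ((φ i g⁻¹).val - (φ i g)⁻¹.val) ^ 2 +
        3 * hs ((φ i g).val * y i - y i * (φ i g).val)) F (𝓝 0) := by
      have := ((((asf_inv h g).pow 2).const_mul 3).add (((asf_inv h g).pow 2).const_mul 3)).add
        (Tendsto.const_mul 3 hg)
      simpa using this
    refine squeeze_zero (fun i => hs_nonneg _) (fun i => ?_) h1
    set a := (φ i g⁻¹).val - (φ i g)⁻¹.val with ha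
    have e2 : (φ i g)⁻¹.val * y i - y i * (φ i g)⁻¹.val =
        -((φ i g)⁻¹.val * ((φ i g).val * y i - y i * (φ i g).val) * (φ i g)⁻¹.val) := by
      rw [Matrix.mul_sub, Matrix.sub_mul, ← Matrix.mul_assoc, un_inv_mul, Matrix.one_mul,
        ← Matrix.mul_assoc, Matrix.mul_assoc ((φ i g)⁻¹.val * y i), un_mul_inv, Matrix.mul_one,
        neg_sub]
    have e1 : (φ i g⁻¹).val * y i - y i * (φ i g⁻¹).val = a * y i + (-(y i * a)) +
        ((φ i g)⁻¹.val * y i - y i * (φ i g)⁻¹.val) := by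
      rw [ha]
      noncomm_ring
    rw [e1]
    refine (hs_add3_le _ _ _).trans ?_
    rw [e2, hs_neg, hs_neg, hs_un', hs_un]
    have h2 := hs_opn a (y i)
    have h3 := hs_opn' a (y i)
    have h4 : opn a ^ 2 * hs (y i) ≤ opn a ^ 2 := by
      nlinarith [hy i, sq_nonneg (opn a)]
    linarith

theorem mem_cms (h : AsF F d φ) (y : ∀ i, Mt (d i)) (hy : ∀ i, hs (y i) ≤ 1) (g : G) :
    g ∈ cms h y hy ↔ Cm F φ y g := Iff.rfl

/-- the elements which tend to one form a subgroup -/
def ker1 (h : AsF F d φ) : Subgroup G where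
  carrier := {g | Tendsto (fun i => opn ((φ i g).val - 1)) F (𝓝 0)}
  mul_mem' := by
    intro g k hg hk
    change Tendsto (fun i => opn ((φ i g).val - 1)) F (𝓝 0) at hg
    change Tendsto (fun i => opn ((φ i k).val - 1)) F (𝓝 0) at hk
    change Tendsto (fun i => opn ((φ i (g * k)).val - 1)) F (𝓝 0)
    have h1 := ((h g k).add hk).add hg
    rw [add_zero, add_zero] at h1
    refine squeeze_zero (fun i => opn_nonneg _) (fun i => ?_) h1
    have e1 : (φ i (g * k)).val - 1 = ((φ i (g * k)).val - (φ i g).val * (φ i k).val) +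
        (φ i g).val * ((φ i k).val - 1) + ((φ i g).val - 1) := by noncomm_ring
    rw [e1]
    have h2 := opn_add_le (((φ i (g * k)).val - (φ i g).val * (φ i k).val) +
        (φ i g).val * ((φ i k).val - 1)) ((φ i g).val - 1)
    have h3 := opn_add_le ((φ i (g * k)).val - (φ i g).val * (φ i k).val)
        ((φ i g).val * ((φ i k).val - 1))
    have h4 := opn_un_mul (φ i g) ((φ i k).val - 1)
    linarith
  one_mem' := by
    change Tendsto (fun i => opn ((φ i 1).val - 1)) F (𝓝 0)
    exact asf_one h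
  inv_mem' := by
    intro g hg
    change Tendsto (fun i => opn ((φ i g).val - 1)) F (𝓝 0) at hg
    change Tendsto (fun i => opn ((φ i g⁻¹).val - 1)) F (𝓝 0)
    have h1 := (asf_inv h g).add hg
    rw [add_zero] at h1
    refine squeeze_zero (fun i => opn_nonneg _) (fun i => ?_) h1
    have e1 : (φ i g⁻¹).val - 1 = ((φ i g⁻¹).val - (φ i g)⁻¹.val) +
        (φ i g)⁻¹.val * (1 - (φ i g).val) := by
      rw [Matrix.mul_sub, un_inv_mul, Matrix.mul_one]
      abel
    rw [e1]
    have h2 := opn_add_le ((φ i g⁻¹).val - (φ i g)⁻¹.val) ((φ i g)⁻¹.val * (1 - (φ i g).val))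
    have h3 := opn_un_mul (φ i g)⁻¹ (1 - (φ i g).val)
    have h4 := opn_sub_comm 1 (φ i g).val
    linarith

theorem mem_ker1 (h : AsF F d φ) (g : G) :
    g ∈ ker1 h ↔ Tendsto (fun i => opn ((φ i g).val - 1)) F (𝓝 0) := Iff.rfl

/-- words in the generators -/
theorem word_tendsto {k : ℕ} (h : AsF F d φ) (j : FreeGroup (Fin k) →* G)
    (w : FreeGroup (Fin k)) :
    Tendsto (fun i => opn ((FreeGroup.lift (fun s => φ i (j (FreeGroup.of s))) w).val -
      (φ i (j w)).val)) F (𝓝 0) := by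
  induction w using FreeGroup.induction_on with
  | C1 =>
    refine (asf_one h).congr fun i => ?_
    rw [map_one, map_one, opn_sub_comm]
    rfl
  | of s =>
    refine tendsto_const_nhds.congr fun i => ?_
    change _ = opn ((FreeGroup.lift (fun s => φ i (j (FreeGroup.of s))) (FreeGroup.of s)).val - _)
    rw [FreeGroup.lift_apply_of, sub_self, opn_eq, norm_zero]
  | inv_of s _ =>
    have h1 := asf_inv h (j (FreeGroup.of s))
    refine h1.congr fun i => ?_
    rw [map_inv, map_inv, FreeGroup.lift_apply_of, opn_sub_comm]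
  | mul v w hv hw =>
    have h1 := (h (j v) (j w)).add (hv.add hw)
    rw [add_zero, add_zero] at h1
    refine squeeze_zero (fun i => opn_nonneg _) (fun i => ?_) h1
    rw [map_mul, map_mul, Submonoid.coe_mul]
    set L := FreeGroup.lift (fun s => φ i (j (FreeGroup.of s)))
    have e1 : (L v).val * (L w).val - (φ i (j v * j w)).val =
        ((φ i (j v)).val * (φ i (j w)).val - (φ i (j v * j w)).val) +
        (((L v).val - (φ i (j v)).val) * (L w).val +
        (φ i (j v)).val * ((L w).val - (φ i (j w)).val)) := by noncomm_ring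
    rw [e1]
    have h2 := opn_add_le ((φ i (j v)).val * (φ i (j w)).val - (φ i (j v * j w)).val)
      (((L v).val - (φ i (j v)).val) * (L w).val +
        (φ i (j v)).val * ((L w).val - (φ i (j w)).val))
    have h3 := opn_add_le (((L v).val - (φ i (j v)).val) * (L w).val)
      ((φ i (j v)).val * ((L w).val - (φ i (j w)).val))
    have h4 := opn_mul_un (L w) ((L v).val - (φ i (j v)).val)
    have h5 := opn_un_mul (φ i (j v)) ((L w).val - (φ i (j w)).val)
    have h6 := opn_sub_comm ((φ i (j v)).val * (φ i (j w)).val) (φ i (j v * j w)).val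
    linarith

end seq

end

end Pool.Agent.N682.MS
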