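import Pool.Agent.N682.MS.Bas

/-!
# Project MS: operator norm rigidity from the leaves
-/

set_option autoImplicit false

namespace Pool.Agent.N682.MS

open Matrix Filter Topology
open Pool.Agent.W661.RC (HasT Mt hs)
open Pool.Agent.W683.RC

noncomputable section

/-- the properties of the spectral projection -/
structure Pq {k d : ℕ} (U : Fin k → Matrix.unitaryGroup (Fin d) ℂ) (κ ε : ℝ) (q : Mt d) : Prop where
  sa : qᴴ = q
  idem : q * q = q
  up : ∀ (s : Fin k) (x : Mt d), hs (((U s).val - 1) * ((1 - q) * x)) ≤ ε * hs x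
  lo : κ * hs q ≤ ∑ s, hs (((U s).val - 1) * q)

theorem pq_op {k d : ℕ} {U : Fin k → Matrix.unitaryGroup (Fin d) ℂ} {κ ε : ℝ} {q : Mt d}
    (hε : 0 ≤ ε) (h : Pq U κ ε q) (s : Fin k) : opn (((U s).val - 1) * (1 - q)) ^ 2 ≤ ε := by
  have h1 : opn (((U s).val - 1) * (1 - q)) ≤ √ε := by
    apply opn_le_of hε
    intro x
    rw [Matrix.mul_assoc]
    exact h.up s x
  calc opn (((U s).val - 1) * (1 - q)) ^ 2 ≤ √ε ^ 2 := pow_le_pow_left₀ (opn_nonneg _) h1 2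
    _ = ε := Real.sq_sqrt hε

theorem pq_comm {k d : ℕ} {U : Fin k → Matrix.unitaryGroup (Fin d) ℂ} {κ ε : ℝ} {q : Mt d}
    (hε : 0 ≤ ε) (h : Pq U κ ε q) (s : Fin k) :
    hs ((U s).val * q - q * (U s).val) ≤ 4 * ε * hs q := by
  set u : Mt d := (U s).val with hu
  set a : Mt d := (u - 1) * (1 - q) with ha
  have huu : u * uᴴ = 1 := by
    have := Matrix.mem_unitaryGroup_iff.mp (U s).2
    rwa [Matrix.star_eq_conjTranspose] at this
  have huu' : uᴴ * u = 1 := Pool.Agent.W637.RC.PTD.uni (U s)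
  have h1 : opn a ^ 2 ≤ ε := pq_op hε h s
  -- `q (u - 1) (1 - q) = q a`
  have h2 : hs (q * a) ≤ ε * hs q :=
    (hs_opn' a q).trans (mul_le_mul_of_nonneg_right h1 (hs_nonneg q))
  -- `(1 - q) (u - 1) q = - (uᴴ a)ᴴ q`
  have h3 : (1 - q) * (u - 1) * q = -((uᴴ * a)ᴴ * q) := by
    rw [ha]
    simp only [Matrix.conjTranspose_mul, Matrix.conjTranspose_sub, Matrix.conjTranspose_one,
      Matrix.conjTranspose_conjTranspose, h.sa]
    have e1 : (1 - q) * (uᴴ - 1) * u = -((1 - q) * (u - 1)) := by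
      have : (uᴴ - 1) * u = -(u - 1) := by
        rw [Matrix.sub_mul, huu', Matrix.one_mul]
        abel
      rw [Matrix.mul_assoc, this, Matrix.mul_neg]
    rw [e1, Matrix.neg_mul, neg_neg]
  have h4 : opn (uᴴ * a)ᴴ ^ 2 ≤ ε := by
    rw [opn_conj]
    refine le_trans (pow_le_pow_left₀ (opn_nonneg _) ?_ 2) h1
    have e1 : uᴴ = (U s)⁻¹.val := by
      rw [Matrix.UnitaryGroup.inv_val, Matrix.star_eq_conjTranspose]
    rw [e1]
    exact opn_un_mul _ _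
  have h5 : hs ((1 - q) * (u - 1) * q) ≤ ε * hs q := by
    rw [h3, hs_neg]
    exact (hs_opn _ q).trans (mul_le_mul_of_nonneg_right h4 (hs_nonneg q))
  have h6 : u * q - q * u = (1 - q) * (u - 1) * q - q * a := by
    rw [ha]
    noncomm_ring
  rw [h6]
  have h7 := hs_sub_le ((1 - q) * (u - 1) * q) (q * a)
  linarith

/-- the normalised projection -/
def nq {d : ℕ} (q : Mt d) : Mt d := (((√(hs q))⁻¹ : ℝ) : ℂ) • q

theorem hs_nq {d : ℕ} {q : Mt d} (hq : q ≠ 0) : hs (nq q) = 1 := by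
  have h1 := hs_pos hq
  rw [nq, hs_smul_real, inv_pow, Real.sq_sqrt h1.le, inv_mul_cancel₀ h1.ne']

theorem hs_nq_le {d : ℕ} (q : Mt d) : hs (nq q) ≤ 1 := by
  by_cases hq : q = 0
  · rw [nq, hq, smul_zero, hs_zero]
    exact zero_le_one
  · exact (hs_nq hq).le

theorem nq_zero {d : ℕ} {q : Mt d} (h : hs (nq q) ≠ 1) : q = 0 := by
  by_contra hq
  exact h (hs_nq hq)

theorem nq_comm {k d : ℕ} {U : Fin k → Matrix.unitaryGroup (Fin d) ℂ} {κ ε : ℝ} {q : Mt d}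
    (hε : 0 ≤ ε) (h : Pq U κ ε q) (s : Fin k) :
    hs ((U s).val * nq q - nq q * (U s).val) ≤ 4 * ε := by
  have h1 : (U s).val * nq q - nq q * (U s).val =
      (((√(hs q))⁻¹ : ℝ) : ℂ) • ((U s).val * q - q * (U s).val) := by
    rw [nq, Matrix.mul_smul, Matrix.smul_mul, smul_sub]
  rw [h1, hs_smul_real]
  have h2 := pq_comm hε h s
  have h3 : (√(hs q))⁻¹ ^ 2 * hs q ≤ 1 := by
    have := hs_nq_le q
    rwa [nq, hs_smul_real] at this
  have h4 := mul_le_mul_of_nonneg_left h2 (sq_nonneg (√(hs q))⁻¹)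
  have h5 := mul_le_mul_of_nonneg_left h3 (by positivity : (0 : ℝ) ≤ 4 * ε)
  linarith

theorem nq_lo {k d : ℕ} {U : Fin k → Matrix.unitaryGroup (Fin d) ℂ} {κ ε : ℝ} {q : Mt d}
    (h : Pq U κ ε q) : κ * hs (nq q) ≤ ∑ s, hs (((U s).val - 1) * nq q) := by
  have h1 : ∀ s, hs (((U s).val - 1) * nq q) = (√(hs q))⁻¹ ^ 2 * hs (((U s).val - 1) * q) := by
    intro s
    rw [nq, Matrix.mul_smul, hs_smul_real]
  simp only [h1]
  rw [← Finset.mul_sum, nq, hs_smul_real]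
  have := mul_le_mul_of_nonneg_left h.lo (sq_nonneg (√(hs q))⁻¹)
  linarith

theorem t_rig (hgen : ∀ (Γ : Type) [Group Γ], HasT Γ →
      ∃ (k : ℕ) (γ : FreeGroup (Fin k) →* Γ), Function.Surjective γ)
    (h1 : S_GAPM) (h2 : S_SPEC) (h3 : S_R1) (h4 : S_R2) : S_RIG := by
  classical
  intro Γ G _ _ hT Φ l x0 ι t ht hl hgn d φ hφ x
  obtain ⟨k, γ, hγ⟩ := hgen Γ hT
  obtain ⟨κ, hκ, hgap⟩ := h1 Γ k γ hT hγ
  set u : ∀ n, Fin k → Matrix.unitaryGroup (Fin (d n)) ℂ :=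
    fun n s => φ n ((ι.comp γ) (FreeGroup.of s)) with hu
  have hφ' : AsF atTop d φ := hφ
  -- the gap and the projections
  have hex : ∀ ε : ℝ, 0 < ε → ∀ᶠ n in atTop, ∃ q : Mt (d n), Pq (u n) κ ε q := by
    intro ε hε
    obtain ⟨θ, hθ, hsp⟩ := h2 k κ ε hκ hε
    obtain ⟨δ, hδ, R, hR, hg⟩ := hgap θ hθ
    have e1 : ∀ᶠ n in atTop, ∀ w ∈ R, opn ((FreeGroup.lift (u n) w).val - 1 : Mt (d n)) ≤ δ := by
      rw [Filter.eventually_all_finset]
      intro w hw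
      have e2 := word_tendsto hφ' (ι.comp γ) w
      have e3 : (ι.comp γ) w = 1 := by
        rw [MonoidHom.comp_apply, hR w hw, map_one]
      have e4 := e2.add (asf_one hφ')
      rw [add_zero] at e4
      filter_upwards [e4.eventually_lt_const hδ] with n hn
      refine le_trans ?_ hn.le
      have e5 : (FreeGroup.lift (u n) w).val - 1 = ((FreeGroup.lift (u n) w).val -
          (φ n ((ι.comp γ) w)).val) + ((φ n 1).val - 1) := by
        rw [e3]
        abel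
      rw [e5]
      exact opn_add_le _ _
    filter_upwards [e1] with n hn
    obtain ⟨q, q1, q2, q3, q4⟩ := hsp (d n) (u n) (hg (d n) (u n) hn).1
    exact ⟨q, q1, q2, q3, q4⟩
  set F : Filter (ℝ × ℕ) := Filter.curry (𝓝[>] (0 : ℝ)) atTop with hF
  set q : ∀ i : ℝ × ℕ, Mt (d i.2) := fun i =>
    if h : ∃ q : Mt (d i.2), Pq (u i.2) κ i.1 q then h.choose else 0 with hq
  have hqs : ∀ᶠ i in F, 0 ≤ i.1 ∧ Pq (u i.2) κ i.1 (q i) := by
    have e0 : ∀ᶠ ε : ℝ in 𝓝[>] (0 : ℝ), ∀ᶠ n in atTop, 0 ≤ ε ∧ Pq (u n) κ ε (q (ε, n)) := by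
      filter_upwards [self_mem_nhdsWithin] with ε hε
      filter_upwards [hex ε hε] with n hn
      refine ⟨le_of_lt hε, ?_⟩
      change Pq (u n) κ ε (if h : ∃ q : Mt (d n), Pq (u n) κ ε q then h.choose else 0)
      rw [dif_pos hn]
      exact hn.choose_spec
    exact Filter.eventually_curry_iff.2 e0
  have hsnd : Tendsto (Prod.snd : ℝ × ℕ → ℕ) F atTop :=
    tendsto_snd.mono_left Filter.curry_le_prod
  have hfst : Tendsto (Prod.fst : ℝ × ℕ → ℝ) F (𝓝 0) :=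
    (tendsto_fst.mono_left Filter.curry_le_prod).mono_right nhdsWithin_le_nhds
  set ψ : ∀ i : ℝ × ℕ, G → Matrix.unitaryGroup (Fin (d i.2)) ℂ := fun i => φ i.2 with hψ
  have hψF : AsF F (fun i : ℝ × ℕ => d i.2) ψ := fun g h => (hφ' g h).comp hsnd
  set ξ : ∀ i : ℝ × ℕ, Mt (d i.2) := fun i => nq (q i) with hξ
  have hξ1 : ∀ i, hs (ξ i) ≤ 1 := fun i => hs_nq_le _
  -- `ξ` commutes with the group
  have hcm : ∀ y, Cm F ψ ξ (ι y) := by
    intro y
    obtain ⟨w, rfl⟩ := hγ y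
    have e1 : ∀ s, (ι.comp γ) (FreeGroup.of s) ∈ cms hψF ξ hξ1 := by
      intro s
      rw [mem_cms]
      have e2 : Tendsto (fun i : ℝ × ℕ => 4 * i.1) F (𝓝 0) := by
        simpa using hfst.const_mul 4
      refine squeeze_zero' (Eventually.of_forall fun i => hs_nonneg _) ?_ e2
      filter_upwards [hqs] with i hi
      exact nq_comm hi.1 hi.2 s
    have e3 : (ι.comp γ) w ∈ cms hψF ξ hξ1 := by
      have e4 : (⊤ : Subgroup (FreeGroup (Fin k))).map (ι.comp γ) ≤ cms hψF ξ hξ1 := by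
        rw [← FreeGroup.closure_range_of, MonoidHom.map_closure, Subgroup.closure_le]
        rintro _ ⟨_, ⟨s, rfl⟩, rfl⟩
        exact e1 s
      exact e4 ⟨w, Subgroup.mem_top _, rfl⟩
    exact e3
  -- the group acts trivially on `ξ`
  have htr := h3 (ℝ × ℕ) F Γ G Φ l x0 ι hl hgn (fun i => d i.2) ψ hψF
    (fun y hy hy2 => h4 (ℝ × ℕ) F Γ G hT Φ ι t ht (fun i => d i.2) ψ hψF y hy hy2) ξ hξ1 hcm
  have hsum : Tendsto (fun i : ℝ × ℕ => ∑ s, hs (((u i.2 s).val - 1) * ξ i)) F (𝓝 0) := by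
    have e1 := tendsto_finsetSum (Finset.univ : Finset (Fin k))
      fun s _ => htr (γ (FreeGroup.of s))
    rw [Finset.sum_const_zero] at e1
    exact e1
  have hq0 : ∀ᶠ i in F, q i = 0 := by
    filter_upwards [hsum.eventually_lt_const (show (0 : ℝ) < κ by exact hκ), hqs] with i e1 e2
    apply nq_zero
    intro e3
    have e4 := nq_lo e2.2
    rw [e3, mul_one] at e4
    exact absurd e1 (not_lt.2 e4)
  -- conclusion
  have hfin : ∀ᶠ ε : ℝ in 𝓝[>] (0 : ℝ), ∀ᶠ n in atTop, ∀ s, opn ((u n s).val - 1) ^ 2 ≤ ε := by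
    have e1 : ∀ᶠ i in F, ∀ s, opn ((u i.2 s).val - 1) ^ 2 ≤ i.1 := by
      filter_upwards [hq0, hqs] with i e2 e3 s
      have e4 := pq_op e3.1 e3.2 s
      rw [e2, sub_zero, Matrix.mul_one] at e4
      exact e4
    exact Filter.eventually_curry_iff.1 e1
  have hgn1 : ∀ s, (ι.comp γ) (FreeGroup.of s) ∈ ker1 hφ' := by
    intro s
    rw [mem_ker1, Metric.tendsto_atTop]
    intro c hc
    have e1 : ∀ᶠ ε : ℝ in 𝓝[>] (0 : ℝ), ε < c ^ 2 :=
      (eventually_lt_nhds (by positivity)).filter_mono nhdsWithin_le_nhds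
    obtain ⟨ε, e2, e3⟩ := (hfin.and e1).exists
    obtain ⟨N, hN⟩ := eventually_atTop.1 e2
    refine ⟨N, fun n hn => ?_⟩
    have e4 := hN n hn s
    rw [Real.dist_eq, sub_zero, abs_of_nonneg (opn_nonneg _)]
    exact lt_of_pow_lt_pow_left₀ 2 hc.le (lt_of_le_of_lt e4 e3)
  obtain ⟨w, rfl⟩ := hγ x
  have e4 : (⊤ : Subgroup (FreeGroup (Fin k))).map (ι.comp γ) ≤ ker1 hφ' := by
    rw [← FreeGroup.closure_range_of, MonoidHom.map_closure, Subgroup.closure_le]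
    rintro _ ⟨_, ⟨s, rfl⟩, rfl⟩
    exact hgn1 s
  exact e4 ⟨w, Subgroup.mem_top _, rfl⟩

end

end Pool.Agent.N682.MS
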